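import Pool.Agent.Q4.Lip.Up

/-!
# The Sobolev gap does not depend on the weight in a Lipschitz way
-/

open scoped NNReal ENNReal
open Q4.HC Q4.Lip

namespace Pool.Agent.Results.MP_d7c545_al.NotLipschitz

/-- For the real reductive group `G = SL(2, ℝ) × SL(2, ℝ)` and every `C` there are a weight `w`, a
Harish-Chandra module `V` with `Norm(V, w) ≠ ∅` (and `s(V, w) ≤ 4`) and `t ≥ 0` (namely
`t = 1 / 2`) with `s(V, w_t) > s(V, w) + C t`. One module `V` serves all `C`. -/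
theorem result : ∃ (V : Type) (_ : AddCommGroup V) (_ : Module ℂ V) (D : Ops 2 V),
    D.IsHarishChandra ∧ ∀ c : ℝ, 0 < c → ∀ C : ℝ≥0, ∃ w : G 2 → ℝ, IsWeightFunction w ∧
      (∃ p, InNorm D w p) ∧ gap D c w ≤ 4 ∧
        ∃ t : ℝ≥0, gap D c w + C * t < gap D c (wt w t) := by
  refine ⟨VW, inferInstance, inferInstance, DD, harishChandra, fun c hc C => ?_⟩
  obtain ⟨b, hb⟩ := exists_nat_gt (4 + (C : ℝ) * (1 / 2))
  refine ⟨wb b, wb_weight b, ⟨pn 0, inNorm_of 0 one_pos (std_le' b)⟩, gap_up hc b, 1 / 2, ?_⟩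
  calc gap DD c (wb b) + (C : ℝ≥0∞) * ((1 / 2 : ℝ≥0) : ℝ≥0∞)
      ≤ 4 + (C : ℝ≥0∞) * ((1 / 2 : ℝ≥0) : ℝ≥0∞) := by
        gcongr
        exact gap_up hc b
    _ = ((4 + C * (1 / 2) : ℝ≥0) : ℝ≥0∞) := by push_cast; rfl
    _ < ((b : ℝ≥0) : ℝ≥0∞) := by
        rw [ENNReal.coe_lt_coe, ← NNReal.coe_lt_coe]
        push_cast
        exact hb
    _ = (b : ℝ≥0∞) := by push_cast; rfl
    _ ≤ gap DD c (wt (wb b) (1 / 2)) := gap_low hc b

end Pool.Agent.Results.MP_d7c545_al.NotLipschitz
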